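import Pool.Agent.Helper50.CT.Goals

set_option autoImplicit false

open Set Filter Topology

namespace Pool.Agent.Helper79.CT

open Pool.Agent.Helper50.CT

/-- Packet GEN of project CT: the generation lemma. -/
theorem goalGEN (hSJ : Pool.Agent.Helper50.CT.StmtSJ) (hLAB : Pool.Agent.Helper50.CT.StmtLAB)
    (hBG : Pool.Agent.Helper50.CT.StmtBG) : Pool.Agent.Helper50.CT.StmtGEN := by
  intro n X T _ _ _ π hG hC p q y y0 t t' e ρ ρ' r he htt thin hq hmid hy0 hyy0 hjoin h2ρ hρr k hk
  have hπ : ∀ x y : X, dist (π x) (π y) ≤ dist x y := fun x y => by simpa using hC.le x y 0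
  have hfl : ∀ v w : X, dist (π p) (π w) - dist (π p) (π v) ≤ dist v w := by
    intro v w
    have h1 := dist_triangle (π p) (π v) (π w)
    have h2 := hπ v w
    linarith
  have hfi : ∀ (β : Fin n → ℤ) (w : X), dist (π p) (π (β +ᵥ w)) = dist (π p) (π w) := by
    intro β w
    rw [hC.inv]
  -- translation of joins
  have hBG3 := (hBG n X T π hC p q t').2.2
  have hA : ∀ β β' : Fin n → ℤ, JoinedIn (Up π p t') (β +ᵥ q) (β' +ᵥ q) →
      β' - β ∈ AddSubgroup.closure ({k : Fin n → ℤ | JoinedIn (Up π p t') q (k +ᵥ q)} ∪ Sh n y r) := by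
    intro β β' h
    apply AddSubgroup.subset_closure
    left
    have h1 := hBG3 _ _ (-β) h
    rw [vadd_vadd, vadd_vadd, neg_add_cancel, zero_vadd] at h1
    have h2 : -β + β' = β' - β := by abel
    rw [h2] at h1
    exact h1
  have hB : ∀ β β' : Fin n → ℤ, dist (β +ᵥ y) (β' +ᵥ y) ≤ r →
      β' - β ∈ AddSubgroup.closure ({k : Fin n → ℤ | JoinedIn (Up π p t') q (k +ᵥ q)} ∪ Sh n y r) := by
    intro β β' h
    apply AddSubgroup.subset_closure
    right
    have h1 := hC.isom (-β) (β +ᵥ y) (β' +ᵥ y)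
    rw [vadd_vadd, vadd_vadd, neg_add_cancel, zero_vadd] at h1
    have h2 : -β + β' = β' - β := by abel
    rw [h2] at h1
    show dist y ((β' - β) +ᵥ y) ≤ r
    rw [h1]
    exact h
  have hCC : ∀ w : X, t' + e < dist (π p) (π w) → ∃ β : Fin n → ℤ,
      JoinedIn (Up π p t') w (β +ᵥ q) ∧
      dist w (β +ᵥ y0) ≤ |dist (π p) (π w) - dist (π p) (π y0)| + e := by
    intro w hw
    obtain ⟨β, hβ⟩ := hC.lift w y0
    have h1 : dist w (β +ᵥ y0) ≤ |dist (π p) (π w) - dist (π p) (π y0)| + e := by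
      rw [hβ]
      exact thin w y0
    refine ⟨β, ?_, h1⟩
    have h2 : JoinedIn (Up π p t') w (β +ᵥ y0) := by
      apply hSJ X T π hG hπ p w (β +ᵥ y0) t'
      rw [hfi]
      refine lt_of_le_of_lt h1 ?_
      rw [hy0]
      rcases abs_cases (dist (π p) (π w) - (t' + 2 * e)) with ⟨h, _⟩ | ⟨h, _⟩ <;> rw [h] <;> linarith
    exact h2.trans (hBG3 _ _ β hjoin)
  have key := hLAB X (Fin n → ℤ)
    (AddSubgroup.closure ({k : Fin n → ℤ | JoinedIn (Up π p t') q (k +ᵥ q)} ∪ Sh n y r))
    (Up π p t)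
    (fun w β => (t' + e < dist (π p) (π w) ∧ JoinedIn (Up π p t') w (β +ᵥ q)) ∨
      (dist (π p) (π w) < t' + 2 * e ∧ dist w (β +ᵥ y) < ρ))
    ?_ ?_ ?_ q (k +ᵥ q) 0 k hk ?_ ?_
  · simpa using key
  · -- existence
    intro w hw
    by_cases h : t' + e < dist (π p) (π w)
    · obtain ⟨β, hβ, _⟩ := hCC w h
      exact ⟨β, Or.inl ⟨h, hβ⟩⟩
    · push Not at h
      have h1 : dist (π w) (π y) < ρ := hmid w hw (by linarith)
      obtain ⟨β, hβ⟩ := hC.lift w y
      exact ⟨β, Or.inr ⟨by linarith, by rw [hβ]; exact h1⟩⟩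
  · -- two labels
    have hmix : ∀ (w : X) (β β' : Fin n → ℤ), t' + e < dist (π p) (π w) →
        JoinedIn (Up π p t') w (β +ᵥ q) → dist (π p) (π w) < t' + 2 * e → dist w (β' +ᵥ y) < ρ →
        β' - β ∈ AddSubgroup.closure
          ({k : Fin n → ℤ | JoinedIn (Up π p t') q (k +ᵥ q)} ∪ Sh n y r) := by
      intro w β β' h1 h2 h3 h4
      obtain ⟨β'', h5, h6⟩ := hCC w h1
      have h7 := hA β β'' (h2.symm.trans h5)
      have h8 : dist w (β'' +ᵥ y0) ≤ 2 * e := by
        refine h6.trans ?_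
        rw [hy0]
        rcases abs_cases (dist (π p) (π w) - (t' + 2 * e)) with ⟨h, _⟩ | ⟨h, _⟩ <;> rw [h] <;> linarith
      have h9 : dist (β'' +ᵥ y) (β'' +ᵥ y0) ≤ ρ' := by
        rw [hC.isom]
        exact hyy0
      have h10 : dist (β'' +ᵥ y) (β' +ᵥ y) ≤ r := by
        have a1 := dist_triangle (β'' +ᵥ y) (β'' +ᵥ y0) (β' +ᵥ y)
        have a2 := dist_triangle (β'' +ᵥ y0) w (β' +ᵥ y)
        rw [dist_comm (β'' +ᵥ y0) w] at a2
        linarith
      have h11 := hB β'' β' h10
      have h12 : β' - β = (β' - β'') + (β'' - β) := by abel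
      rw [h12]
      exact add_mem h11 h7
    intro w hw β β' hβ hβ'
    rcases hβ with ⟨h1, h2⟩ | ⟨h1, h2⟩ <;> rcases hβ' with ⟨h3, h4⟩ | ⟨h3, h4⟩
    · exact hA β β' (h2.symm.trans h4)
    · exact hmix w β β' h1 h2 h3 h4
    · have := hmix w β' β h3 h4 h1 h2
      have h5 : β' - β = -(β - β') := by abel
      rw [h5]
      exact neg_mem this
    · apply hB
      have a1 := dist_triangle (β +ᵥ y) w (β' +ᵥ y)
      rw [dist_comm (β +ᵥ y) w] at a1
      linarith
  · -- local constancy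
    intro w hw β hβ
    rcases hβ with ⟨h1, h2⟩ | ⟨h1, h2⟩
    · have hpos : 0 < min (dist (π p) (π w) - t' - e) (2 * e) := lt_min (by linarith) (by linarith)
      filter_upwards [Metric.ball_mem_nhds w hpos] with v hv
      rw [Metric.mem_ball] at hv
      have h3 : dist v w < dist (π p) (π w) - t' - e := lt_of_lt_of_le hv (min_le_left _ _)
      have h4 : dist v w < 2 * e := lt_of_lt_of_le hv (min_le_right _ _)
      have h5 := hfl v w
      left
      refine ⟨by linarith, ?_⟩
      have h6 : JoinedIn (Up π p t') v w := by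
        apply hSJ X T π hG hπ p v w t'
        linarith
      exact h6.trans h2
    · have hpos : 0 < min (t' + 2 * e - dist (π p) (π w)) (ρ - dist w (β +ᵥ y)) :=
        lt_min (by linarith) (by linarith)
      filter_upwards [Metric.ball_mem_nhds w hpos] with v hv
      rw [Metric.mem_ball] at hv
      have h3 : dist v w < t' + 2 * e - dist (π p) (π w) := lt_of_lt_of_le hv (min_le_left _ _)
      have h4 : dist v w < ρ - dist w (β +ᵥ y) := lt_of_lt_of_le hv (min_le_right _ _)
      have h5 := hfl w v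
      rw [dist_comm w v] at h5
      right
      refine ⟨by linarith, ?_⟩
      have h6 := dist_triangle v w (β +ᵥ y)
      linarith
  · -- the label 0 of q
    left
    refine ⟨hq, ?_⟩
    rw [zero_vadd]
    exact JoinedIn.refl (show t' < dist (π p) (π q) by linarith)
  · left
    refine ⟨by rw [hfi]; exact hq, ?_⟩
    exact JoinedIn.refl (show t' < dist (π p) (π (k +ᵥ q)) by rw [hfi]; linarith)

end Pool.Agent.Helper79.CT
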